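import Mathlib
import Pool.Agent.H642R3.Hom.Syntax
import Pool.Agent.H642R3.Hom.Sem
import Pool.Agent.H642R3.Hom.Exist
import Pool.Agent.H642R3.Hom.Truth
import Pool.Agent.H642R3.Hom.Counter

set_option autoImplicit false

/-!
# The homotopical semantics is not complete for intuitionistic first-order logic

The sentence, over the signature with sorts `base`, `tot` and one function symbol `g : tot → base`,
is

`(∀ x, ∃ y, g(y) = x) ⇒ ∀ x x', ∃ y y', (g(y) = x ∧ g(y') = x') ∧ (x = x' ⇒ y = y')`.

A simplex of the interpretation of the hypothesis contains a simplicial map `x ↦ y(x)`, which also
acts on paths, so the sentence is true in every structure.  It is refuted in the algebra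
`g : ℕ × ℕ → ℕ`, `(a, k) ↦ a`, with the endomorphism `a ↦ ⌊a / 2⌋`,
`(a, k) ↦ (⌊a / 2⌋, 2 k + a mod 2)`, regarded as a Kripke model; this model satisfies the law of
excluded middle for all sentences (formulas without free variables), so the failure of completeness
is not due to that law, which also holds in all structures.
-/

namespace Pool.Agent.Results.MP_57cfa6_lc.Incomplete

open Pool.Agent.H642R3.Hom

/-- **The homotopical semantics in Kan complexes is not complete for intuitionistic first-order
logic.**  For the signature `sig` with sorts `base`, `tot` and one function symbol
`g : tot → base`, the sentence `acSentence`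
* is true in every structure in `Kan`: the homotopical interpretation exists, and `[acSentence]`
  is non-empty for it (however the objects, which are determined up to isomorphism by the clauses
  of the semantics, are chosen);
* is not derivable in intuitionistic first-order logic with equality;
* is not even derivable from instances `ψ ∨ ¬ψ` of excluded middle for sentences `ψ`. -/
theorem result :
    (∀ M : Str sig, M.IsKan →
      Nonempty (Interpretation M) ∧ ∀ I : Interpretation M, I.True acSentence) ∧
    ¬ Der [] acSentence ∧
    ∀ H : List (Sentence sig), (∀ χ ∈ H, ∃ ψ : Sentence sig, χ = ψ.or ψ.neg) →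
      ¬ Der H acSentence :=
  ⟨fun M _ => ⟨⟨theInterpretation M⟩, fun I => acSentence_true I⟩, not_der [] (by simp), not_der⟩

end Pool.Agent.Results.MP_57cfa6_lc.Incomplete
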